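import Pool.Agent.H64.NetSearch.Upper

/-!
# Optimal search strategies that must traverse an arc three times

There is a network (two nodes joined by three parallel arcs of length `6`, a bridge of length `1`
from one of them to the starting point `O`, and a tail of length `1000` at `O`) such that every
optimal search strategy, with positive probability, traverses the bridge at least three times
before the whole network has been visited. An optimal search strategy exists.
-/

set_option autoImplicit false

open scoped NNReal ENNReal
open MeasureTheory

namespace Pool.Agent.Results.MP_29d814_co.ThriceOptimal

open Pool.Agent.H64.NetSearch

/-- There are a network `N` and a starting point `O` for which an optimal mixed search strategy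
exists, and every optimal mixed search strategy gives positive probability to a measurable set of
trajectories each of which traverses some sub-segment of positive length of some arc at least
three times before it has visited every point of the network. -/
theorem result : ∃ (N : Network) (O : N.Point),
    (∃ s : ProbabilityMeasure (Trajectory N O), IsOptimal s) ∧
    ∀ s : ProbabilityMeasure (Trajectory N O), IsOptimal s →
      ∃ B : Set (Trajectory N O), MeasurableSet B ∧ 0 < (s : Measure (Trajectory N O)) B ∧
        ∀ S ∈ B, S.VisitsPartMoreThanTwice :=
  ⟨theta, Theta.O, exists_isOptimal _ _, fun s hs =>
    ⟨Theta.bad, Theta.measurableSet_bad, Theta.bad_pos s hs, fun _ h => Theta.visits_of_bad h⟩⟩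

end Pool.Agent.Results.MP_29d814_co.ThriceOptimal
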